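import Pool.Agent.K3h14.FD.Stm

/-!
# Fitting idempotents and primitive idempotents

Brick FIT+MIN of project FD of helper14.
-/

set_option autoImplicit false

namespace Pool.Agent.K3h94.FD

open Polynomial Pool.Agent.K3h14.FD

universe w

theorem t_FIT : S_FIT.{w} := by
  intro K V _ _ _ _ x
  have hint : IsIntegral K x := Algebra.IsIntegral.isIntegral x
  have hm0 : minpoly K x ≠ 0 := minpoly.ne_zero hint
  obtain ⟨u, hu, hdvd⟩ := Polynomial.exists_eq_pow_rootMultiplicity_mul_and_not_dvd (minpoly K x)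
    hm0 0
  set N := (minpoly K x).rootMultiplicity 0 with hN
  rw [C_0, sub_zero] at hu hdvd
  have hcop : IsCoprime (X ^ (N + 1) : K[X]) u :=
    ((Polynomial.irreducible_X.coprime_iff_not_dvd).2 hdvd).pow_left
  obtain ⟨a, b, hab⟩ := hcop
  have hmx : aeval x (X ^ N * u) = 0 := by
    rw [← hu]
    exact minpoly.aeval K x
  refine ⟨a * X ^ (N + 1), ?_, ?_, ?_⟩
  · rw [pow_succ, ← mul_assoc, coeff_mul_X_zero]
  · have h1 : a * X ^ (N + 1) * (a * X ^ (N + 1)) =
        a * X ^ (N + 1) - (a * b * X) * (X ^ N * u) := by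
      have h2 : a * X ^ (N + 1) = 1 - b * u := eq_sub_of_add_eq hab
      calc a * X ^ (N + 1) * (a * X ^ (N + 1)) = a * X ^ (N + 1) * (1 - b * u) := by rw [← h2]
        _ = a * X ^ (N + 1) - (a * b * X) * (X ^ N * u) := by ring
    have h3 : aeval x (a * b * X * (X ^ N * u)) = 0 := by
      rw [map_mul (aeval x) (a * b * X) (X ^ N * u), hmx, mul_zero]
    rw [← map_mul, h1, map_sub, h3, sub_zero]
  · intro Q hQ
    have hpow : ∀ k : ℕ, x ^ k * Q = Q := by
      intro k
      induction k with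
      | zero => rw [pow_zero, one_mul]
      | succ k ih => rw [pow_succ, mul_assoc, hQ, ih]
    have h3 : aeval x (b * u * X ^ N) = 0 := by
      have h5 : b * u * X ^ N = b * (X ^ N * u) := by ring
      rw [h5, map_mul (aeval x) b (X ^ N * u), hmx, mul_zero]
    have h4 : aeval x (b * u) * x ^ N = 0 := by
      rw [map_mul (aeval x) (b * u) (X ^ N), map_pow, aeval_X] at h3
      exact h3
    have h1 : aeval x (b * u) * Q = 0 := by
      rw [← hpow N, ← mul_assoc, h4, zero_mul]
    have h2 : a * X ^ (N + 1) = 1 - b * u := eq_sub_of_add_eq hab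
    rw [h2, map_sub, map_one, sub_mul, one_mul, h1, sub_zero]

theorem t_MIN : S_MIN.{w} := by
  intro K V _ _ _ _ S q hqS hq hq0
  obtain ⟨e, ⟨heS, he, he0, hqe, heq⟩, hmin⟩ := WellFounded.has_min
    (measure fun e : Module.End K V => Module.finrank K (LinearMap.range e)).wf
    {e | e ∈ S ∧ e * e = e ∧ e ≠ 0 ∧ q * e = e ∧ e * q = e} ⟨q, hqS, hq, hq0, hq, hq⟩
  refine ⟨e, heS, he, he0, hqe, heq, fun f hfS hf hef hfe => ?_⟩
  by_cases hf0 : f = 0
  · exact Or.inl hf0
  · right
    have hqf : q * f = f := by rw [← hef, ← mul_assoc, hqe]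
    have hfq : f * q = f := by rw [← hfe, mul_assoc, heq]
    have h1 : ¬ Module.finrank K (LinearMap.range f) < Module.finrank K (LinearMap.range e) :=
      hmin f ⟨hfS, hf, hf0, hqf, hfq⟩
    have h2 : LinearMap.range f ≤ LinearMap.range e := by
      rintro _ ⟨v, rfl⟩
      exact ⟨f v, by rw [← Module.End.mul_apply, hef]⟩
    have h3 : LinearMap.range f = LinearMap.range e :=
      Submodule.eq_of_le_of_finrank_le h2 (not_lt.1 h1)
    have h4 : f * e = e := by
      apply LinearMap.ext
      intro v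
      have h5 : e v ∈ LinearMap.range f := by
        rw [h3]
        exact ⟨v, rfl⟩
      obtain ⟨w, hw⟩ := h5
      rw [Module.End.mul_apply, ← hw, ← Module.End.mul_apply, hf]
    rw [← hfe, h4]

end Pool.Agent.K3h94.FD
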